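import Pool.Agent.X289.EI.Comp
import Pool.Agent.X289.EI.Crit

/-!
# Representations with the spectrum of a motivic representation, up to roots of unity, are motivic

Let `θ` be the monodromy of a family `f : Y → U` and `ρ` an irreducible representation of the fundamental group. We show
that `ρ` is a subquotient of `F[G/N] ⊗ W^{⊗ a} ⊗ (W^*)^{⊗ b}`, where `W` is the space of `θ` and `N` a normal subgroup of
finite index, as soon as for all `g` every eigenvalue of `ρ (g)` is the product of an eigenvalue of `θ (g)` and a
`q`-th root of unity, for some `q ≥ 1`, whatever the multiplicities. By the Künneth formula, duality and direct images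
along the finite covering of `N`, such a `ρ` is motivic. No rigidity or integrality of `ρ` is assumed.

The proof. The condition says that the eigenvalues of `ρ (g ^ q)` are among those of `θ (g ^ q)` for all `g`. Let `A` be the
algebra of functions on `G` generated by the entries of `ρ` and `θ`. By noetherianity there is a subgroup `N` of finite
index for which the ideal of functions vanishing on `N` is largest possible; this ideal is prime, as the stabilizer in `N`
of a minimal prime over it contained in the ideal `I` of the point `1` has finite index. Let `ψ : A → A` be the map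
`(ψ f)(g) = f (g ^ q)`. On `I ^ r / I ^ (r + 1)` it is the multiplication by `q ^ r`, so a function `f` with `ψ f = 0` is in
all powers of `I`, by Krull's intersection theorem `s f = f` for some `s ∈ I`, and so `f = 0` on `N`. Hence the
eigenvalues of `ρ` are among those of `θ` on `N`. The entries of `ρ` are then integral over the algebra generated by the
entries of `θ^{±1}` on `N`, and belong to it: its only point over `1` is `1`, as the powers of the corresponding unipotent
matrix have entries in a finite set, and there are no tangent vectors.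
-/

set_option autoImplicit false

namespace Pool.Agent.Results.MP_009209_ag.SpectralMotivicity

open Polynomial
open Pool.Agent.X320.DS.St (Rep Poly mat Stable Semisimple Irreducible value IsSubquotient)

section

variable {G F : Type} [Group G] [Field F] {n m : ℕ}

/-- for every eigenvalue `x` of `ρ (g)` there is an eigenvalue `y` of `θ (g)` with `x ^ q = y ^ q` (`F` will be
algebraically closed) -/
def UpToRoots (q : ℕ) (ρ : Rep G F n) (θ : Rep G F m) (g : G) : Prop :=
  ∀ x, (mat ρ g).charpoly.IsRoot x → ∃ y, (mat θ g).charpoly.IsRoot y ∧ x ^ q = y ^ q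

/-- all eigenvalues of `ρ (g)` are eigenvalues of `θ (g)`, without regard to multiplicities -/
def EigenvaluesAmong (ρ : Rep G F n) (θ : Rep G F m) (g : G) : Prop :=
  ∀ x, (mat ρ g).charpoly.IsRoot x → (mat θ g).charpoly.IsRoot x

/-- the entries of `ρ (g)`, for `g` in `N`, are polynomials in the entries of `θ (g)` and `θ (g)⁻¹` -/
def PolynomialOn (N : Subgroup G) (ρ : Rep G F n) (θ : Rep G F m) : Prop :=
  ∃ Q : Matrix (Fin n) (Fin n) (Poly F m), ∀ g ∈ N, mat ρ g = Q.map fun P => value θ P g

/-- The eigenvalues of `ρ (g)` are among those of `θ (g)` for all `g` in `N`; if `ρ` is semisimple, its entries on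
`N` are polynomials in the entries of `θ^{±1}`; if `ρ` is irreducible, it is a subquotient of
`F[G/N] ⊗ W^{⊗ a} ⊗ (W^*)^{⊗ b}` for some `a`, `b`, where `W` is the space of `θ`. -/
def DominatedOn (N : Subgroup G) (ρ : Rep G F n) (θ : Rep G F m) : Prop :=
  (∀ g ∈ N, EigenvaluesAmong ρ θ g) ∧ (Semisimple ρ → PolynomialOn N ρ θ) ∧
    (Irreducible ρ → ∃ a b, IsSubquotient ρ θ N a b)

end

section

open Pool.Agent.X289.EI (on_subgroup)
open Pool.Agent.X289.EI.FS (AmongQ amongQ_iff finite_index_subgroup)
open Pool.Agent.X320.DS (algT gens tannaka)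

/-- **Spectral criterion for motivicity.** Let `G` be a group (for instance `π_1 (X)`), `F` an algebraically closed field of
characteristic zero (for instance `ℂ`), `ρ : G → GL_n(F)` and `θ : G → GL_m(F)` representations. The following are
equivalent:

1. for some `q ≥ 1` and all `g` in `G`, every eigenvalue of `ρ (g)` is an eigenvalue of `θ (g)` times a `q`-th root
of unity (`x ^ q = y ^ q`);

2. there is a normal subgroup `N` of finite index such that the eigenvalues of `ρ (g)` are among those of `θ (g)` for all
`g ∈ N`; if `ρ` is semisimple, its entries on `N` are polynomials in the entries of `θ^{±1}`; if `ρ` is irreducible, it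
is a subquotient of `F[G/N] ⊗ W^{⊗ a} ⊗ (W^*)^{⊗ b}` for some `a`, `b`, where `W` is the space of `θ`. -/
theorem result (G F : Type) [Group G] [Field F] [IsAlgClosed F] [CharZero F] (n m : ℕ) (ρ : Rep G F n)
    (θ : Rep G F m) :
    (∃ q, 0 < q ∧ ∀ g, UpToRoots q ρ θ g) ↔
      ∃ N : Subgroup G, N.Normal ∧ N.FiniteIndex ∧ DominatedOn N ρ θ := by
  constructor
  · rintro ⟨q, hq, h⟩
    obtain ⟨N, hNn, hNf, hN⟩ := finite_index_subgroup ρ θ q hq fun g => (amongQ_iff hq ρ θ g).1 (h g)
    haveI := hNn
    haveI := hNf
    haveI : Finite (G ⧸ N) := Subgroup.finite_quotient_of_finiteIndex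
    have key : Semisimple ρ → ∀ s t, ∃ φ ∈ algT θ, ∀ g ∈ N, mat ρ g s t = φ g := fun hρs s t =>
      on_subgroup N hρs (fun g hg x hx => by rw [pow_one]; exact hN g hg x hx) s t
    refine ⟨N, hNn, hNf, hN, fun hρs => ?_, fun hρi => ?_⟩
    · choose φ h1 h2 using key hρs
      choose Q hQ using fun s t => Pool.Agent.X320.DS.St.exists_value θ (h1 s t)
      refine ⟨Matrix.of Q, fun g hg => ?_⟩
      ext s t
      rw [h2 s t g hg, hQ s t]
      rfl
    · choose φ h1 h2 using key hρi.semisimple
      obtain ⟨a, b, S, π, hπ, hS⟩ := tannaka hρi.1 ρ hρi.2 θ N φ h1 (fun g hg s t => h2 s t g hg)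
      exact ⟨a, b, Pool.Agent.X320.DS.St.isSubquotient_iff _ _ _ _ _ ⟨S, π, hπ, hS⟩⟩
  · rintro ⟨N, hNn, hNf, hN, _, _⟩
    haveI := hNn
    have hq : 0 < N.index := Nat.pos_of_ne_zero hNf.index_ne_zero
    exact ⟨N.index, hq, fun g => (amongQ_iff hq ρ θ g).2 (hN _ (N.pow_index_mem g))⟩

end

end Pool.Agent.Results.MP_009209_ag.SpectralMotivicity
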